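import Mathlib

/-!
# MP_c4a8f9_gt (Q1, Q2): selective (sequential) pseudocompactness is not preserved by
`G`-equivalence
-/

set_option autoImplicit false

open Filter Topology

namespace Pool.Agent.Results.MP_c4a8f9_gt.CountablePowers

/-- The set of continuous maps inside `G^X`. -/
def CpSet (X G : Type) [TopologicalSpace X] [TopologicalSpace G] : Set (X → G) :=
  {f | Continuous f}

/-- `C_p(X, G)`: the group of continuous maps `X → G`, a subgroup of the product `G^X` (it gets the
subspace topology of the product topology, i.e. the topology of pointwise convergence). -/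
def Cp (X G : Type) [TopologicalSpace X] [TopologicalSpace G] [Group G] [IsTopologicalGroup G] :
    Subgroup (X → G) where
  carrier := CpSet X G
  mul_mem' := fun {f g} (hf : Continuous f) (hg : Continuous g) => hf.mul hg
  one_mem' := (continuous_const : Continuous fun _ : X => (1 : G))
  inv_mem' := fun {f} (hf : Continuous f) => hf.inv

/-- `X` and `Y` are `G`-equivalent: `C_p(X, G)` and `C_p(Y, G)` are topologically isomorphic. -/
def GEquivalent (G X Y : Type) [TopologicalSpace X] [TopologicalSpace Y] [TopologicalSpace G]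
    [Group G] [IsTopologicalGroup G] : Prop :=
  Nonempty (Cp X G ≃ₜ* Cp Y G)

/-- Selective sequential pseudocompactness. -/
def SelSeqPseudocompact (X : Type) [TopologicalSpace X] : Prop :=
  ∀ U : ℕ → Set X, (∀ n, IsOpen (U n)) → (∀ n, (U n).Nonempty) →
    ∃ x : ℕ → X, (∀ n, x n ∈ U n) ∧
      ∃ φ : ℕ → ℕ, StrictMono φ ∧ ∃ l, Tendsto (x ∘ φ) atTop (𝓝 l)

/-- Selective pseudocompactness. -/
def SelPseudocompact (X : Type) [TopologicalSpace X] : Prop :=
  ∀ U : ℕ → Set X, (∀ n, IsOpen (U n)) → (∀ n, (U n).Nonempty) →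
    (∀ i j, i ≠ j → Disjoint (U i) (U j)) →
    ∃ x : ℕ → X, (∀ n, x n ∈ U n) ∧ ¬ IsClosed (Set.range x)

theorem selPseudo_of_selSeq (X : Type) [TopologicalSpace X] (h : SelSeqPseudocompact X) :
    SelPseudocompact X := by
  intro U hU hne hdis
  obtain ⟨x, hx, φ, hφ, l, hl⟩ := h U hU hne
  refine ⟨x, hx, fun hcl => ?_⟩
  have h1 : l ∈ Set.range x :=
    hcl.mem_of_tendsto hl (Eventually.of_forall fun k => ⟨φ k, rfl⟩)
  obtain ⟨j, hj⟩ := h1
  have h2 : ∀ᶠ k in atTop, (x ∘ φ) k ∈ U j := by
    apply hl
    rw [← hj]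
    exact (hU j).mem_nhds (hx j)
  obtain ⟨k, hk⟩ := (h2.and (eventually_gt_atTop j)).exists
  have h3 : φ k = j := by
    by_contra hne'
    exact Set.disjoint_left.1 (hdis _ _ hne') (hx (φ k)) hk.1
  have h4 : k ≤ φ k := hφ.id_le k
  omega

/-- the isomorphism `C_p(X × ℕ, H^ℕ) ≅ C_p(X, H^ℕ)` -/
def iso (H X : Type) [TopologicalSpace H] [Group H] [IsTopologicalGroup H] [TopologicalSpace X] :
    Cp X (ℕ → H) ≃ₜ* Cp (X × ℕ) (ℕ → H) where
  toFun f := ⟨fun p m => f.1 p.1 (Nat.pair p.2 m), by
    have hf : Continuous f.1 := f.2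
    apply continuous_pi
    intro m
    apply continuous_prod_of_discrete_right.2
    intro n
    exact (continuous_apply (Nat.pair n m)).comp hf⟩
  invFun g := ⟨fun x k => g.1 (x, k.unpair.1) k.unpair.2, by
    have hg : Continuous g.1 := g.2
    apply continuous_pi
    intro k
    exact (continuous_apply k.unpair.2).comp (hg.comp (by fun_prop))⟩
  left_inv f := by
    apply Subtype.ext
    funext x k
    show f.1 x (Nat.pair k.unpair.1 k.unpair.2) = f.1 x k
    rw [Nat.pair_unpair]
  right_inv g := by
    apply Subtype.ext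
    funext p m
    show g.1 (p.1, (Nat.pair p.2 m).unpair.1) (Nat.pair p.2 m).unpair.2 = g.1 p m
    rw [Nat.unpair_pair]
  map_mul' f g := rfl
  continuous_toFun := by
    apply Continuous.subtype_mk
    apply continuous_pi
    intro p
    apply continuous_pi
    intro m
    exact (continuous_apply (Nat.pair p.2 m)).comp
      ((continuous_apply p.1).comp continuous_subtype_val)
  continuous_invFun := by
    apply Continuous.subtype_mk
    apply continuous_pi
    intro x
    apply continuous_pi
    intro k
    exact (continuous_apply k.unpair.2).comp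
      ((continuous_apply (x, k.unpair.1)).comp continuous_subtype_val)

theorem dense_prod (G X : Type) [TopologicalSpace G] [TopologicalSpace X]
    (h : Dense (CpSet X G)) : Dense (CpSet (X × ℕ) G) := by
  let e : (ℕ → X → G) → (X × ℕ → G) := fun F p => F p.2 p.1
  have he : Continuous e :=
    continuous_pi fun p => (continuous_apply p.1).comp (continuous_apply p.2)
  have hsurj : Function.Surjective e := fun f => ⟨fun n x => f (x, n), rfl⟩
  have h1 : Dense (Set.pi Set.univ (fun _ : ℕ => CpSet X G)) := dense_pi _ (fun _ _ => h)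
  have h2 := hsurj.denseRange.dense_image he h1
  refine h2.mono ?_
  rintro _ ⟨F, hF, rfl⟩
  show Continuous (e F)
  apply continuous_prod_of_discrete_right.2
  intro n
  exact hF n trivial

theorem not_selPseudo (X : Type) [TopologicalSpace X] [Nonempty X] [T1Space X] :
    ¬ SelPseudocompact (X × ℕ) := by
  intro h
  obtain ⟨x, hx, hcl⟩ := h (fun n => Prod.snd ⁻¹' {n})
    (fun n => (isOpen_discrete {n}).preimage continuous_snd)
    (fun n => ⟨(Classical.arbitrary X, n), rfl⟩)
    (fun i j hij => by
      rw [Set.disjoint_left]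
      rintro p (hp : p.2 = i) (hp' : p.2 = j)
      exact hij (hp.symm.trans hp'))
  apply hcl
  have h2 : Set.range x = ⋃ n, {x n} := by
    ext p
    simp [eq_comm]
  rw [h2]
  apply LocallyFinite.isClosed_iUnion
  · intro p
    refine ⟨Prod.snd ⁻¹' {p.2}, (isOpen_discrete {p.2}).preimage continuous_snd |>.mem_nhds rfl,
      ?_⟩
    apply (Set.finite_singleton p.2).subset
    rintro n ⟨q, hq1, hq2⟩
    have hq3 : q = x n := hq1
    have hq4 : q.2 = p.2 := hq2
    have hq5 : (x n).2 = n := hx n
    rw [Set.mem_singleton_iff, ← hq4, hq3, hq5]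
  · intro n
    exact isClosed_singleton

/-- **1.** There are a Hausdorff topological group `G` and `G`-equivalent Tychonoff spaces `X`, `Y`
with `C_p(X, G)` dense in `G^X` and `C_p(Y, G)` dense in `G^Y` such that `X` is selectively
sequentially pseudocompact (hence selectively pseudocompact), but `Y` is not even selectively
pseudocompact (hence not selectively sequentially pseudocompact).

**2.** More generally this happens for every countable power `G = H^ℕ` of a nontrivial Hausdorff
group `H` and every nonempty Tychonoff space `X` with `C_p(X, G)` dense in `G^X`: the space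
`Y = X × ℕ` is `G`-equivalent to `X`, `C_p(Y, G)` is dense in `G^Y`, and `Y` has neither of the two
properties. -/
theorem result :
    (∃ (G : Type) (_ : Group G) (_ : TopologicalSpace G) (_ : IsTopologicalGroup G)
      (X Y : Type) (_ : TopologicalSpace X) (_ : TopologicalSpace Y),
      T2Space G ∧ Nontrivial G ∧ T35Space X ∧ T35Space Y ∧ GEquivalent G X Y ∧
      Dense (CpSet X G) ∧ Dense (CpSet Y G) ∧
      SelSeqPseudocompact X ∧ SelPseudocompact X ∧
      ¬ SelSeqPseudocompact Y ∧ ¬ SelPseudocompact Y) ∧
    (∀ (H : Type) [Group H] [TopologicalSpace H] [IsTopologicalGroup H] [T2Space H] [Nontrivial H]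
      (X : Type) [TopologicalSpace X] [T35Space X] [Nonempty X],
      Dense (CpSet X (ℕ → H)) →
      T35Space (X × ℕ) ∧ GEquivalent (ℕ → H) X (X × ℕ) ∧ Dense (CpSet (X × ℕ) (ℕ → H)) ∧
      ¬ SelSeqPseudocompact (X × ℕ) ∧ ¬ SelPseudocompact (X × ℕ)) := by
  have key : ∀ (H : Type) [Group H] [TopologicalSpace H] [IsTopologicalGroup H] [T2Space H]
      [Nontrivial H] (X : Type) [TopologicalSpace X] [T35Space X] [Nonempty X],
      Dense (CpSet X (ℕ → H)) →
      T35Space (X × ℕ) ∧ GEquivalent (ℕ → H) X (X × ℕ) ∧ Dense (CpSet (X × ℕ) (ℕ → H)) ∧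
      ¬ SelSeqPseudocompact (X × ℕ) ∧ ¬ SelPseudocompact (X × ℕ) := by
    intro H _ _ _ _ _ X _ _ _ hd
    refine ⟨inferInstance, ⟨iso H X⟩, dense_prod _ _ hd, ?_, not_selPseudo X⟩
    exact fun h => not_selPseudo X (selPseudo_of_selSeq _ h)
  refine ⟨?_, key⟩
  have hd : Dense (CpSet Unit (ℕ → Multiplicative (ZMod 2))) := by
    have : CpSet Unit (ℕ → Multiplicative (ZMod 2)) = Set.univ := by
      apply Set.eq_univ_of_forall
      intro f
      exact (continuous_of_discreteTopology : Continuous f)
    rw [this]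
    exact dense_univ
  have hS : SelSeqPseudocompact Unit := by
    intro U _ hne
    refine ⟨fun _ => (), fun n => ?_, id, strictMono_id, (), tendsto_const_nhds⟩
    obtain ⟨u, hu⟩ := hne n
    exact hu
  obtain ⟨h1, h2, h3, h4, h5⟩ := key (Multiplicative (ZMod 2)) Unit hd
  exact ⟨ℕ → Multiplicative (ZMod 2), inferInstance, inferInstance, inferInstance, Unit,
    Unit × ℕ, inferInstance, inferInstance, inferInstance, inferInstance, inferInstance, h1, h2,
    hd, h3, hS, selPseudo_of_selSeq _ hS, h4, h5⟩

end Pool.Agent.Results.MP_c4a8f9_gt.CountablePowers
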